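import Pool.Agent.H500.ME.Stm2
import Pool.Agent.H139.ZO.Com

set_option autoImplicit false

/-!
# Project ME (helper500), PART E1: cyclotomic characters
-/

namespace Pool.Agent.H17.ME.CYC

open NumberField IsDedekindDomain Filter Topology Polynomial
open Pool.Agent.W401.Cheb (GK IsFrob IsInert dens)
open Pool.Agent.H500.HC (InRay QBar ZBar jz)
open Pool.Agent.H500.SV (Above Fld)
open Pool.Agent.H500.ED
open Pool.Agent.H500.ME
open Pool.Agent.Q92.AR (Dv Ray prin)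
open Pool.Agent.H894.TH.TFin (exists_below above_nat)

/-- continuity and open normal subgroups -/
theorem nhd {K : Type} [Field K] [NumberField K] {C : Type} [NormedField C] (f : GK K → C)
    (hf : Continuous f) (x : GK K) {δ : ℝ} (hδ : 0 < δ) :
    ∃ V : Subgroup (GK K), V.Normal ∧ IsOpen (V : Set (GK K)) ∧ ∀ u ∈ V, ‖f (x * u) - f x‖ < δ := by
  have h1 : Continuous fun u : GK K => ‖f (x * u) - f x‖ := by fun_prop
  have h2 : IsOpen {u : GK K | ‖f (x * u) - f x‖ < δ} := isOpen_lt h1 continuous_const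
  obtain ⟨V, hV⟩ := ProfiniteGrp.exist_openNormalSubgroup_sub_open_nhds_of_one h2
    (show ‖f (x * 1) - f x‖ < δ by rw [mul_one, sub_self, norm_zero]; exact hδ)
  exact ⟨V.toSubgroup, V.isNormal', V.isOpen', fun u hu => hV hu⟩

section
variable {K : Type} [Field K] [NumberField K] {ℓ : ℕ} [hℓ : Fact ℓ.Prime]

/-- the character of `S_NMC` is cyclotomic of weight two -/
theorem of_nmc {κ : QBar →+* PadicAlgCl ℓ} {φ : Dv K →+ Additive QBarˣ}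
    {χ : GK K →* (PadicAlgCl ℓ)ˣ} (h : IsAC κ ℓ (fun _ => 1) φ χ)
    (hφ : ∀ v : HeightOneSpectrum (𝓞 K), at1 φ v = ((Ideal.absNorm v.asIdeal : ℕ) : QBar)) :
    IsCyc ℓ χ ∧ AC κ 2 χ := by
  refine ⟨⟨h.cont, h.inert, ?_⟩, ?_⟩
  · intro v hv s hs
    rw [h.frob v hv s hs, hφ, map_natCast]
  · refine ⟨ℓ, fun _ => 1, φ, h, ?_⟩
    intro τ
    refine Eventually.of_forall fun w => ?_
    rw [hφ, map_natCast, Complex.norm_natCast]
    exact (zpow_natCast _ 2).symm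

/-- cyclotomic characters are unique -/
theorem cyc_unique {χ χ' : GK K →* (PadicAlgCl ℓ)ˣ} (h : IsCyc ℓ χ) (h' : IsCyc ℓ χ') : χ' = χ := by
  refine MonoidHom.ext fun g => Units.ext ?_
  by_contra hne
  have hδ : 0 < ‖(χ' g : PadicAlgCl ℓ) - χ g‖ := norm_pos_iff.2 (sub_ne_zero.2 hne)
  set δ := ‖(χ' g : PadicAlgCl ℓ) - χ g‖ with hδd
  obtain ⟨V1, hV1n, hV1o, hV1⟩ := nhd (fun s => (χ s : PadicAlgCl ℓ)) h.cont g (half_pos hδ)
  obtain ⟨V2, hV2n, hV2o, hV2⟩ := nhd (fun s => (χ' s : PadicAlgCl ℓ)) h'.cont g (half_pos hδ)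
  have hVn : (V1 ⊓ V2).Normal := inferInstance
  have hVo : IsOpen ((V1 ⊓ V2 : Subgroup (GK K)) : Set (GK K)) := hV1o.inter hV2o
  obtain ⟨v, σ, -, hv, hσ, hgσ⟩ := Pool.Agent.H139.ZO.frob_ex (V1 ⊓ V2) hVn hVo g
    (B := ∅) Set.finite_empty hℓ.out.pos
  have e : g * (g⁻¹ * σ) = σ := mul_inv_cancel_left g σ
  have a1 := hV1 _ hgσ.1
  have a2 := hV2 _ hgσ.2
  simp only [e] at a1 a2
  have a3 : (χ σ : PadicAlgCl ℓ) = χ' σ := (h.frob v hv σ hσ).trans (h'.frob v hv σ hσ).symm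
  rw [a3] at a1
  have a4 : (χ' g : PadicAlgCl ℓ) - χ g = ((χ' σ : PadicAlgCl ℓ) - χ g) - ((χ' σ : PadicAlgCl ℓ) - χ' g) := by
    ring
  have a5 : δ ≤ ‖(χ' σ : PadicAlgCl ℓ) - χ g‖ + ‖(χ' σ : PadicAlgCl ℓ) - χ' g‖ := by
    rw [hδd, a4]
    exact norm_sub_le _ _
  linarith

end

theorem main : Pool.Agent.H500.ME.S_NMC → Pool.Agent.H500.ME.S_ACM → Pool.Agent.H500.ED.S_FXC →
    Pool.Agent.H500.ME.S_CYC := by
  intro hN _ hF K _ _ ℓ hℓ κ
  obtain ⟨φ, χ0, h0, hφ⟩ := hN K ℓ κ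
  obtain ⟨hc, hac⟩ := of_nmc h0 hφ
  refine ⟨⟨χ0, hc⟩, ?_⟩
  intro χ hχ
  refine ⟨?_, fun χ' h' => cyc_unique hχ h', ?_⟩
  · have e : χ = χ0 := cyc_unique hc hχ
    rw [e]
    exact hac
  · intro U L _ _ _ ι e hU hFX
    obtain ⟨-, -, hcont, -, hin, hfr, -⟩ := hF K U L ι e hU hFX
    refine ⟨hχ.cont.comp hcont, ?_, ?_⟩
    · intro u hu s hs
      obtain ⟨v, hv⟩ := exists_below (K := K) u
      have h1 : (ℓ : 𝓞 K) ∉ v.asIdeal := fun h => hu ((above_nat hv _).1 h)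
      exact hχ.unr v h1 (ι s) (hin v u hv s hs)
    · intro u hu s hs
      obtain ⟨v, hv⟩ := exists_below (K := K) u
      have h1 : (ℓ : 𝓞 K) ∉ v.asIdeal := fun h => hu ((above_nat hv _).1 h)
      obtain ⟨f, -, hf, hs'⟩ := hfr v u hv
      obtain ⟨σ, τ, hσ, hτ, hιs⟩ := hs' s hs
      show (χ (ι s) : PadicAlgCl ℓ) = _
      rw [hιs, map_mul, map_pow, hχ.unr v h1 τ hτ, mul_one, Units.val_pow_eq_pow_val,
        hχ.frob v h1 σ hσ, hf, Nat.cast_pow]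

end Pool.Agent.H17.ME.CYC
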